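import Pool.Agent.W2helper16.IT.Final

/-!
# MP_1d703b_an: intertwined polynomials are joined by a chain of two strict intertwinings

Let `K` be an algebraically closed field of characteristic zero and let `P, Q` be polynomials of the
same degree `d ≥ 2`. If `P` and `Q` are intertwined (`R ≥ P^n` and `R ≥ Q^n` for some polynomial `R`
and some `n ≥ 1`), then there is a strict-intertwining chain from `P` to `Q`, and it can be taken to
have two links: there are polynomials `S, φ, ψ` of degree `d` with `φ ≥ P`, `φ ≥ S`, `ψ ≥ S`, `ψ ≥ Q`.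
So the equivalence relation generated by strict intertwining is intertwining.

Outline: if `π ∘ R = P^n ∘ π`, Engstrom's theorem on common left factors and a pigeonhole argument
allow one to replace `P` by some `P' ≥ P`, `π` by a polynomial of degree prime to `d`, and `R`, `n` by
`R^M`, `nM`. The curve `π(x) = P'^n(y)` is then parametrised by `t ↦ (R(t), π(t))`, and a ramification
count shows that `π` has at most one critical value, or `P'^n` is of Chebyshev type. In all cases
`R = ζ ∘ A^n` with `ζ` of degree one and `A ≥ P'`. In the same way `R = ξ ∘ B^n` with `B ≥ Q`, and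
`A^n = η ∘ B^n` with `n ≥ 3` forces, after centring, `A(αz) = α^d A(z)` and `B = A / α`, which are
both semi-conjugate to one polynomial.
-/

set_option autoImplicit false

open Polynomial

namespace Pool.Agent.Results.MP_1d703b_an.ChainOfLengthTwo

variable {K : Type*} [Field K]

/-- Semi-conjugacy `P ≥ Q`: there is a non-constant polynomial `π` with `π ∘ P = Q ∘ π`. -/
def SemiConj (P Q : K[X]) : Prop := ∃ π : K[X], 0 < π.natDegree ∧ π.comp P = Q.comp π

/-- The `n`-th iterate of `P` under composition. -/
noncomputable def iter (P : K[X]) : ℕ → K[X]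
  | 0 => X
  | n + 1 => P.comp (iter P n)

/-- `P ≈ Q`: there are a polynomial `R` and `n ≥ 1` with `R ≥ P^n` and `R ≥ Q^n`. -/
def Intertwined (P Q : K[X]) : Prop :=
  ∃ (R : K[X]) (n : ℕ), 1 ≤ n ∧ SemiConj R (iter P n) ∧ SemiConj R (iter Q n)

/-- A strict-intertwining chain of length `N` from `P` to `Q` among polynomials of degree `d`:
polynomials `P = c 0, c 1, ..., c N = Q` and `φ 1, ..., φ N`, all of degree `d`, with
`φ i ≥ c (i-1)` and `φ i ≥ c i` for `1 ≤ i ≤ N`. -/
def IsChain (d N : ℕ) (P Q : K[X]) (c φ : ℕ → K[X]) : Prop :=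
  c 0 = P ∧ c N = Q ∧ (∀ i, i ≤ N → (c i).natDegree = d) ∧
    ∀ i, i < N → (φ (i + 1)).natDegree = d ∧ SemiConj (φ (i + 1)) (c i) ∧
      SemiConj (φ (i + 1)) (c (i + 1))

lemma iter_eq (P : K[X]) (n : ℕ) : iter P n = Pool.Agent.W2helper16.IT.it P n := by
  induction n with
  | zero => rfl
  | succ n ih => rw [iter, ih, Pool.Agent.W2helper16.IT.it_succ]

/-- If `P, Q` have the same degree `d ≥ 2` and `P ≈ Q`, then there is a strict-intertwining chain
with two links from `P` to `Q`. -/
theorem result (K : Type*) [Field K] [IsAlgClosed K] [CharZero K] (d : ℕ) (hd : 2 ≤ d) (P Q : K[X])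
    (hP : P.natDegree = d) (hQ : Q.natDegree = d) (h : Intertwined P Q) :
    ∃ c φ : ℕ → K[X], IsChain d 2 P Q c φ := by
  obtain ⟨R, n, hn, ⟨π, hπ, h1⟩, ⟨ρ, hρ, h2⟩⟩ := h
  rw [iter_eq] at h1 h2
  obtain ⟨A, B, S, g1, g2, g3, g4⟩ := Pool.Agent.W2helper16.IT.main hn (by omega) (by omega) hπ hρ
    h1 h2
  have e1 : SemiConj A P := g1
  have e2 : SemiConj A S := g2
  have e3 : SemiConj B Q := g3
  have e4 : SemiConj B S := g4
  have d1 := g1.natDegree_eq
  have d2 := g2.natDegree_eq
  have d3 := g3.natDegree_eq
  refine ⟨fun i => if i = 0 then P else if i = 1 then S else Q, fun i => if i = 1 then A else B,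
    by simp, by simp, ?_, ?_⟩
  · intro i _
    simp only
    split_ifs
    · exact hP
    · omega
    · exact hQ
  · intro i hi
    rcases (by omega : i = 0 ∨ i = 1) with rfl | rfl
    · exact ⟨by simp only [zero_add, if_true]; omega, by simpa using e1, by simpa using e2⟩
    · exact ⟨by simp; omega, by simpa using e4, by simpa using e3⟩

end Pool.Agent.Results.MP_1d703b_an.ChainOfLengthTwo
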